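import Pool.Agent.H523.ZG.Stm

set_option autoImplicit false
set_option linter.unusedSectionVars false

/-! # The sum of `μ²(M)/φ(M)` over the degrees between `T` and `r` -/

namespace Pool.Agent.H401.ZG

open Polynomial Finset
open Pool.Agent.H523.FF (two_le_card IrLE mem_IrLE)
open Pool.Agent.H523.CM (gP SF mem_SF coeff_prod_binom nrm nrm_nonneg nrm_add nrm_monomial
  nrm_prod rho rho_sq rho_ge om om_pos sum_om gP_le_two gP_pos iP iP_pos iP_eq fZ coeff_ZT)

open scoped Classical Topology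

variable {F : Type} [Field F] [Fintype F]

/-- the local factor of the weights -/
noncomputable def fA (P : F[X]) : ℝ[X] := C 1 + C (gP P) * X ^ P.natDegree

/-- the local factor after the division by the zeta function -/
noncomputable def fB (P : F[X]) : ℝ[X] :=
  C 1 + C (iP P * gP P) * X ^ P.natDegree + C (-(iP P * gP P)) * X ^ (2 * P.natDegree)

theorem fA_mul_fZ {P : F[X]} (hP : Irreducible P) : fA P * fZ P = fB P := by
  have hx := iP_eq hP
  have e1 : gP P - iP P = iP P * gP P := by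
    have : iP P * (1 + gP P) = iP P + iP P * gP P := by ring
    linarith
  have h1 : fA P * fZ P = C 1 + C (gP P - iP P) * X ^ P.natDegree +
      C (-(iP P * gP P)) * X ^ (2 * P.natDegree) := by
    unfold fA fZ
    rw [mul_comm 2 P.natDegree, pow_mul]
    simp only [C_sub, C_mul, C_neg, C_1]
    ring
  rw [h1, e1]
  rfl

theorem eval_one_fB (P : F[X]) : (fB P).eval 1 = 1 := by
  unfold fB
  simp

variable (F) in
/-- the generating polynomial of the weights -/
noncomputable def WA (y : ℕ) : ℝ[X] := ∏ P ∈ IrLE F y, fA P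

variable (F) in
/-- its quotient by the zeta function -/
noncomputable def kA (y : ℕ) : ℝ[X] := ∏ P ∈ IrLE F y, fB P

theorem WA_mul {y : ℕ} : WA F y * ∏ P ∈ IrLE F y, fZ P = kA F y := by
  unfold WA kA
  rw [← prod_mul_distrib]
  exact prod_congr rfl (fun P hP => fA_mul_fZ (mem_IrLE.mp hP).2.1)

theorem WA_coeff {y : ℕ} : ∀ j : ℕ, j ≤ y →
    (WA F y).coeff j = ∑ i ∈ range (j + 1), (kA F y).coeff i := by
  have key : ∀ j ≤ y, (kA F y).coeff j = (WA F y * (1 - X)).coeff j := by
    intro j hj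
    rw [← WA_mul, coeff_mul, coeff_mul]
    refine sum_congr rfl (fun x hx => ?_)
    rw [HasAntidiagonal.mem_antidiagonal] at hx
    rw [coeff_ZT (F := F) (show x.2 ≤ y by omega)]
  intro j
  induction j with
  | zero =>
    intro hj
    rw [zero_add, sum_range_one, key 0 hj, mul_sub, mul_one, coeff_sub, coeff_mul_X_zero, sub_zero]
  | succ j ih =>
    intro hj
    rw [sum_range_succ, ← ih (by omega), key (j + 1) hj, mul_sub, mul_one, coeff_sub, coeff_mul_X]
    ring

theorem eval_one_kA {y : ℕ} : (kA F y).eval 1 = 1 := by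
  unfold kA
  rw [eval_prod]
  exact prod_eq_one (fun P _ => eval_one_fB P)

theorem nrm_fB {M : ℕ} {P : F[X]} (hP : Irreducible P) :
    nrm (rho F) M (fB P) ≤ 1 + 12 * (om F ^ P.natDegree / ((Fintype.card F : ℝ) ^ P.natDegree) ^ 2) := by
  have hρ : 0 ≤ rho F := Real.sqrt_nonneg _
  have hρ1 : 1 ≤ rho F := by linarith [rho_ge (F := F)]
  have hg0 := gP_pos hP
  have hg2 := gP_le_two hP
  have hi0 := iP_pos P
  have hq := two_le_card (F := F)
  have e : fB P = C 1 * X ^ 0 + C (iP P * gP P) * X ^ P.natDegree +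
      C (-(iP P * gP P)) * X ^ (2 * P.natDegree) := by
    unfold fB
    rw [pow_zero, mul_one]
  rw [e]
  refine (nrm_add hρ M _ _).trans ?_
  refine (add_le_add (nrm_add hρ M _ _) (nrm_monomial hρ M _ _)).trans ?_
  refine (add_le_add_left (add_le_add (nrm_monomial hρ M _ _) (nrm_monomial hρ M _ _)) _).trans ?_
  rw [abs_one, pow_zero, mul_one, abs_neg, abs_of_pos (mul_pos hi0 hg0)]
  have hom : rho F ^ (2 * P.natDegree) = om F ^ P.natDegree := by
    rw [pow_mul, rho_sq]
  have h1 : rho F ^ P.natDegree ≤ om F ^ P.natDegree := by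
    rw [← hom]
    exact pow_le_pow_right₀ hρ1 (by omega)
  rw [hom]
  have h2 : iP P * gP P ≤ 2 / ((Fintype.card F : ℝ) ^ P.natDegree) ^ 2 := by
    calc iP P * gP P ≤ iP P * (2 / (Fintype.card F : ℝ) ^ P.natDegree) :=
          mul_le_mul_of_nonneg_left hg2 hi0.le
      _ = _ := by
        unfold iP
        rw [div_mul_div_comm, one_mul, sq]
  have h3 : 0 < om F ^ P.natDegree := pow_pos om_pos _
  have h4 : iP P * gP P * om F ^ P.natDegree ≤
      2 / ((Fintype.card F : ℝ) ^ P.natDegree) ^ 2 * om F ^ P.natDegree :=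
    mul_le_mul_of_nonneg_right h2 h3.le
  have h5 : iP P * gP P * rho F ^ P.natDegree ≤ iP P * gP P * om F ^ P.natDegree :=
    mul_le_mul_of_nonneg_left h1 (mul_pos hi0 hg0).le
  have h6 : 12 * (om F ^ P.natDegree / ((Fintype.card F : ℝ) ^ P.natDegree) ^ 2) =
      6 * (2 / ((Fintype.card F : ℝ) ^ P.natDegree) ^ 2 * om F ^ P.natDegree) := by ring
  rw [h6]
  have h7 : 0 ≤ iP P * gP P * om F ^ P.natDegree := by positivity
  linarith

theorem nrm_kA {M y : ℕ} : nrm (rho F) M (kA F y) ≤ Real.exp 18 := by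
  have hρ : 0 ≤ rho F := Real.sqrt_nonneg _
  have hq := two_le_card (F := F)
  have hom := om_pos (F := F)
  unfold kA
  have h1 := nrm_prod hρ M (IrLE F y) fB (fun P => 1 + 12 * (om F ^ P.natDegree /
    ((Fintype.card F : ℝ) ^ P.natDegree) ^ 2)) (fun P hP => nrm_fB (mem_IrLE.mp hP).2.1)
  refine h1.trans ?_
  calc ∏ P ∈ IrLE F y, (1 + 12 * (om F ^ P.natDegree / ((Fintype.card F : ℝ) ^ P.natDegree) ^ 2))
      ≤ ∏ P ∈ IrLE F y, Real.exp (12 * (om F ^ P.natDegree /
        ((Fintype.card F : ℝ) ^ P.natDegree) ^ 2)) := by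
        refine prod_le_prod (fun P _ => by positivity) (fun P _ => ?_)
        rw [add_comm]
        exact Real.add_one_le_exp _
    _ = Real.exp (12 * ∑ P ∈ IrLE F y, om F ^ P.natDegree /
        ((Fintype.card F : ℝ) ^ P.natDegree) ^ 2) := by
        rw [← Real.exp_sum, mul_sum]
    _ ≤ Real.exp 18 := by
        apply Real.exp_le_exp.mpr
        have h3 := sum_om (F := F) y
        linarith

/-- the weights of degree `j` -/
theorem WA_near {y j : ℕ} (hj : j ≤ y) :
    |(WA F y).coeff j - 1| ≤ Real.exp 18 * (12 / 13) ^ j := by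
  have hρ1 := rho_ge (F := F)
  have hρ0 : 0 < rho F := by linarith
  set M := max ((kA F y).natDegree + 1) (j + 1) with hM
  have hM1 : (kA F y).natDegree < M := by
    have := le_max_left ((kA F y).natDegree + 1) (j + 1)
    omega
  have hM2 : j + 1 ≤ M := le_max_right _ _
  have h1 : ∑ i ∈ range M, (kA F y).coeff i = 1 := by
    have h := eval_eq_sum_range' hM1 (1:ℝ)
    rw [eval_one_kA] at h
    rw [h]
    refine sum_congr rfl (fun i _ => ?_)
    rw [one_pow, mul_one]
  have h2 : (WA F y).coeff j - 1 = -∑ i ∈ Finset.Ico (j + 1) M, (kA F y).coeff i := by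
    rw [WA_coeff j hj, ← h1, ← sum_range_add_sum_Ico _ hM2]
    ring
  rw [h2, abs_neg]
  have h3 : |∑ i ∈ Finset.Ico (j + 1) M, (kA F y).coeff i| * rho F ^ j ≤ Real.exp 18 := by
    calc |∑ i ∈ Finset.Ico (j + 1) M, (kA F y).coeff i| * rho F ^ j
        ≤ (∑ i ∈ Finset.Ico (j + 1) M, |(kA F y).coeff i|) * rho F ^ j :=
          mul_le_mul_of_nonneg_right (abs_sum_le_sum_abs _ _) (by positivity)
      _ ≤ ∑ i ∈ Finset.Ico (j + 1) M, |(kA F y).coeff i| * rho F ^ i := by
          rw [sum_mul]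
          refine sum_le_sum (fun i hi => ?_)
          rw [Finset.mem_Ico] at hi
          exact mul_le_mul_of_nonneg_left (pow_le_pow_right₀ (by linarith) (by omega))
            (abs_nonneg _)
      _ ≤ nrm (rho F) M (kA F y) := by
          unfold nrm
          apply sum_le_sum_of_subset_of_nonneg
          · intro i hi
            rw [Finset.mem_Ico] at hi
            exact mem_range.mpr hi.2
          · intro _ _ _
            positivity
      _ ≤ _ := nrm_kA
  have h4 : ((13:ℝ) / 12) ^ j ≤ rho F ^ j := pow_le_pow_left₀ (by norm_num) hρ1 j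
  have h5 : ((12:ℝ) / 13) ^ j * (13 / 12) ^ j = 1 := by
    rw [← mul_pow]
    norm_num
  have h6 : |∑ i ∈ Finset.Ico (j + 1) M, (kA F y).coeff i| * (13 / 12) ^ j ≤ Real.exp 18 :=
    (mul_le_mul_of_nonneg_left h4 (abs_nonneg _)).trans h3
  calc |∑ i ∈ Finset.Ico (j + 1) M, (kA F y).coeff i|
      = (|∑ i ∈ Finset.Ico (j + 1) M, (kA F y).coeff i| * (13 / 12) ^ j) * (12 / 13) ^ j := by
        rw [mul_assoc, mul_comm (((13:ℝ) / 12) ^ j), h5, mul_one]
    _ ≤ _ := mul_le_mul_of_nonneg_right h6 (by positivity)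

theorem geo13 (n : ℕ) : ∑ j ∈ range n, ((12:ℝ) / 13) ^ j = 13 - 13 * (12 / 13) ^ n := by
  induction n with
  | zero => norm_num
  | succ n ih =>
    rw [sum_range_succ, ih, pow_succ]
    ring

/-- the sum over the sets of primes in terms of the coefficients -/
theorem sum_SF {T r : ℕ} :
    ∑ s ∈ SF F r \ SF F T, ∏ P ∈ s, gP P = ∑ j ∈ Finset.Ioc T r, (WA F r).coeff j := by
  have hm : ∀ s ∈ SF F r \ SF F T, (∑ P ∈ s, P.natDegree) ∈ Finset.Ioc T r := by
    intro s hs
    rw [Finset.mem_sdiff] at hs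
    have h1 := mem_SF.mp hs.1
    rw [Finset.mem_Ioc]
    refine ⟨?_, h1.2⟩
    by_contra h2
    exact hs.2 (mem_SF.mpr ⟨h1.1, by omega⟩)
  rw [← sum_fiberwise_of_maps_to hm]
  refine sum_congr rfl (fun j hj => ?_)
  rw [Finset.mem_Ioc] at hj
  unfold WA fA
  rw [coeff_prod_binom]
  refine sum_congr ?_ (fun U _ => ?_)
  · ext s
    rw [mem_filter, mem_filter, Finset.mem_sdiff, mem_powerset]
    constructor
    · rintro ⟨⟨h1, _⟩, h3⟩
      have h4 := mem_SF.mp h1
      refine ⟨fun P hP => ?_, h3⟩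
      rw [mem_IrLE]
      refine ⟨(h4.1 P hP).1, (h4.1 P hP).2, ?_⟩
      exact (single_le_sum (f := fun P : F[X] => P.natDegree) (fun _ _ => Nat.zero_le _) hP).trans
        h4.2
    · rintro ⟨h1, h3⟩
      refine ⟨⟨?_, ?_⟩, h3⟩
      · rw [mem_SF]
        exact ⟨fun P hP => ⟨(mem_IrLE.mp (h1 hP)).1, (mem_IrLE.mp (h1 hP)).2.1⟩, by omega⟩
      · intro h4
        have h5 := (mem_SF.mp h4).2
        omega
  · rw [prod_const_one, mul_one]

theorem main : Pool.Agent.H523.ZG.S_A := by
  refine ⟨13 * Real.exp 18, ?_⟩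
  intro F _ _ T r hTr
  rw [sum_SF]
  have h1 : ((r:ℝ) - T) = ∑ _j ∈ Finset.Ioc T r, (1:ℝ) := by
    rw [sum_const, Nat.card_Ioc, nsmul_eq_mul, mul_one, Nat.cast_sub hTr]
  rw [h1, ← sum_sub_distrib]
  calc |∑ j ∈ Finset.Ioc T r, ((WA F r).coeff j - 1)|
      ≤ ∑ j ∈ Finset.Ioc T r, |(WA F r).coeff j - 1| := abs_sum_le_sum_abs _ _
    _ ≤ ∑ j ∈ Finset.Ioc T r, Real.exp 18 * (12 / 13) ^ j := by
        refine sum_le_sum (fun j hj => ?_)
        rw [Finset.mem_Ioc] at hj
        exact WA_near hj.2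
    _ ≤ ∑ j ∈ range (r + 1), Real.exp 18 * (12 / 13) ^ j := by
        apply sum_le_sum_of_subset_of_nonneg
        · intro i hi
          rw [Finset.mem_Ioc] at hi
          rw [mem_range]
          omega
        · intro _ _ _
          positivity
    _ ≤ 13 * Real.exp 18 := by
        rw [← mul_sum, geo13]
        have h2 : (0:ℝ) < (12 / 13) ^ (r + 1) := by positivity
        have h3 := Real.exp_pos 18
        nlinarith

end Pool.Agent.H401.ZG
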